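import Pool.Agent.H53.KKAll

set_option autoImplicit false

namespace Pool.Agent.Results.MP_023270_nt.KiKimFalse

open Pool.Agent.Lead.KK

theorem result :
    ∃ lam : ℝ, lam < 0 ∧ Differentiable ℂ (Xi lam) ∧
      (∃ c C : ℝ, 0 < c ∧ 0 < C ∧ ∀ᶠ T : ℝ in Filter.atTop,
        ENNReal.ofReal (c * T * Real.log T) ≤ zeroCount (Xi lam) {z | |z.re| ≤ T ∧ z.im ≠ 0} ∧
        zeroCount (Xi lam) {z | z.im = 0 ∧ ‖z‖ ≤ T} ≤ ENNReal.ofReal (C * T * Real.log T)) ∧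
      ¬ Filter.Tendsto (fun T : ℝ => zeroCount (Xi lam) {z | z.im = 0 ∧ ‖z‖ ≤ T} /
        zeroCount (Xi lam) {z | |z.re| ≤ T}) Filter.atTop (nhds 1) :=
  Pool.Agent.H53.KK.finAll

end Pool.Agent.Results.MP_023270_nt.KiKimFalse
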